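import Pool.Agent.Run7.h432.LV.Stm

set_option autoImplicit false

namespace Run7.h417.LV

open Run7.h432.LV

universe u

/-- additive maps of functions map `V` to `V` as soon as they do so with words -/
lemma V_map {U : Type u} [Ring U] {ι κ : Type}
    (T : ((ι → U) → U) →+ ((κ → U) → U))
    (hT : ∀ w : List (U ⊕ ι), Once w → T (ev w) ∈ V U κ) (F : (ι → U) → U) (hF : F ∈ V U ι) :
    T F ∈ V U κ := by
  have h : V U ι ≤ (V U κ).comap T := by
    refine (AddSubgroup.closure_le _).mpr ?_
    rintro _ ⟨w, hw, rfl⟩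
    exact hT w hw
  exact h hF

theorem t_VP : S_VP.{u} := by
  intro U _ ι F hF σ
  let T : ((ι → U) → U) →+ ((ι → U) → U) :=
    { toFun := fun F x => F (x ∘ σ)
      map_zero' := rfl
      map_add' := fun _ _ => rfl }
  refine V_map T ?_ F hF
  intro w hw
  refine AddSubgroup.subset_closure ⟨w.map (Sum.map id σ), ⟨?_, ?_⟩, ?_⟩
  · rw [List.filterMap_map]
    have e : (Sum.getRight? ∘ (Sum.map id σ : U ⊕ ι → U ⊕ ι))
        = fun o => (Sum.getRight? o).map σ := by
      funext o
      cases o <;> rfl
    rw [e, ← List.map_filterMap]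
    exact hw.1.map σ.injective
  · intro i
    rw [List.mem_map]
    exact ⟨Sum.inr (σ.symm i), hw.2 _, by simp⟩
  · funext x
    show ev w (x ∘ σ) = ev (w.map (Sum.map id σ)) x
    unfold ev
    rw [List.map_map]
    congr 2
    funext o
    cases o <;> rfl

/-- insert the letters -/
def ins {U : Type u} {ι : Type} (g : ι → U) : U ⊕ ι → List (U ⊕ ι)
  | Sum.inl c => [Sum.inl c]
  | Sum.inr i => [Sum.inl (g i), Sum.inr i]

lemma ev_ins {U : Type u} [Ring U] {ι : Type} (g : ι → U) (w : List (U ⊕ ι)) (x : ι → U) :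
    ev (w.flatMap (ins g)) x = ev w (fun i => g i * x i) := by
  induction w with
  | nil => rfl
  | cons a w ih =>
    unfold ev at ih ⊢
    rw [List.flatMap_cons, List.map_append, List.prod_append, ih, List.map_cons, List.prod_cons]
    cases a <;> simp [ins]

lemma filter_ins {U : Type u} {ι : Type} (g : ι → U) (w : List (U ⊕ ι)) :
    (w.flatMap (ins g)).filterMap Sum.getRight? = w.filterMap Sum.getRight? := by
  induction w with
  | nil => rfl
  | cons a w ih =>
    rw [List.flatMap_cons, List.filterMap_append, ih]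
    cases a <;> rfl

theorem t_VM : S_VM.{u} := by
  intro U _ ι F hF g
  let T : ((ι → U) → U) →+ ((ι → U) → U) :=
    { toFun := fun F x => F (fun i => g i * x i)
      map_zero' := rfl
      map_add' := fun _ _ => rfl }
  refine V_map T ?_ F hF
  intro w hw
  refine AddSubgroup.subset_closure ⟨w.flatMap (ins g), ⟨?_, ?_⟩, ?_⟩
  · rw [filter_ins]
    exact hw.1
  · intro i
    rw [List.mem_flatMap]
    exact ⟨Sum.inr i, hw.2 i, by simp [ins]⟩
  · funext x
    exact (ev_ins g w x).symm

end Run7.h417.LV
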